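import Mathlib
import Pool.Agent.H45.XR.Defs

/-!
# Project XR, module G: directions of boundary segments of sections
-/

set_option autoImplicit false

open MeasureTheory Set Filter Topology
open scoped Real ENNReal NNReal

namespace Pool.Agent.H45.XR

/-- the projection of a relation with a 2-Hölder bound has dimension at most 1/2 -/
theorem dimH_of_holder {R : ℝ → ℝ → Prop} {C : ℝ} (hC : 0 ≤ C)
    (h : ∀ τ w τ' w', R τ w → R τ' w' → |τ - τ'| ≤ C * (w - w') ^ 2) :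
    dimH {τ | ∃ w, R τ w} ≤ 1 / 2 := by
  classical
  set g : ℝ → ℝ := fun w => if h : ∃ τ, R τ w then h.choose else 0 with hgdef
  have hg : ∀ w τ, R τ w → R (g w) w := by
    intro w τ hw
    have hex : ∃ τ, R τ w := ⟨τ, hw⟩
    simp only [hgdef, dif_pos hex]
    exact hex.choose_spec
  have hsub : {τ | ∃ w, R τ w} ⊆ g '' {w | ∃ τ, R τ w} := by
    rintro τ ⟨w, hw⟩
    refine ⟨w, ⟨τ, hw⟩, ?_⟩
    have := h _ _ _ _ (hg w τ hw) hw
    simp only [sub_self] at this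
    have h2 : |g w - τ| = 0 := le_antisymm (by simpa using this) (abs_nonneg _)
    have := abs_eq_zero.1 h2
    linarith
  have hH : HolderOnWith C.toNNReal 2 g {w | ∃ τ, R τ w} := by
    rintro x ⟨τ, hx⟩ y ⟨τ', hy⟩
    have h1 := h _ _ _ _ (hg x τ hx) (hg y τ' hy)
    rw [edist_dist, edist_dist, Real.dist_eq, Real.dist_eq]
    have h2 : ENNReal.ofReal |x - y| ^ (((2 : ℝ≥0) : ℝ)) = ENNReal.ofReal ((x - y) ^ 2) := by
      rw [← sq_abs (x - y), ENNReal.ofReal_pow (abs_nonneg _)]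
      norm_num
    rw [h2]
    have h3 : ((C.toNNReal : ℝ≥0) : ℝ≥0∞) = ENNReal.ofReal C := rfl
    rw [h3, ← ENNReal.ofReal_mul hC]
    exact ENNReal.ofReal_le_ofReal h1
  calc dimH {τ | ∃ w, R τ w} ≤ dimH (g '' {w | ∃ τ, R τ w}) := dimH_mono hsub
    _ ≤ dimH {w | ∃ τ, R τ w} / ((2 : ℝ≥0) : ℝ≥0∞) := hH.dimH_image_le two_pos
    _ ≤ 1 / 2 := by
        have : dimH {w | ∃ τ, R τ w} ≤ 1 := (dimH_mono (subset_univ _)).trans_eq Real.dimH_univ
        exact ENNReal.div_le_div this (by norm_num)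

/-- a support plane along a line -/
theorem support_exists {K : Set (ℂ × ℝ)} (hK : Body3 K) {h : ℝ} (hh : h ∈ Hts K) {φ : ℝ} {p : ℂ}
    (hn : ∀ z ∈ interior (sec K h), tc φ z ≠ tc φ p) :
    ∃ A s : ℝ, A ≠ 0 ∧ ∀ z t, (z, t) ∈ K → A * tc φ z + s * t ≤ A * tc φ p + s * h := by
  obtain ⟨z₀, hz₀⟩ := hh
  set ℓ : Set (ℂ × ℝ) := {x | tc φ x.1 = tc φ p ∧ x.2 = h} with hℓ
  have hconv : Convex ℝ ℓ := by
    rintro ⟨x, a⟩ ⟨hx, ha⟩ ⟨y, b⟩ ⟨hy, hb⟩ u v hu hv huv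
    simp only at hx ha hy hb
    refine ⟨?_, ?_⟩
    · simp only [Prod.fst_add, Prod.smul_fst, tc_add, tc_smul, hx, hy]
      rw [← add_mul, huv, one_mul]
    · simp only [Prod.snd_add, Prod.smul_snd, smul_eq_mul, ha, hb]
      rw [← add_mul, huv, one_mul]
  have hdisj : Disjoint (interior K) ℓ := by
    rw [Set.disjoint_left]
    rintro ⟨z, t⟩ hz ⟨h1, h2⟩
    simp only at h1 h2
    subst h2
    apply hn z _ h1
    have ho : IsOpen ((fun w : ℂ => (w, t)) ⁻¹' interior K) :=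
      isOpen_interior.preimage (by fun_prop)
    have hsub : (fun w : ℂ => (w, t)) ⁻¹' interior K ⊆ sec K t :=
      fun w (hw : (w, t) ∈ interior K) => (interior_subset hw : (w, t) ∈ K)
    exact interior_maximal hsub ho hz
  obtain ⟨f, u, hf1, hf2⟩ := geometric_hahn_banach_open hK.conv.interior isOpen_interior hconv hdisj
  have hfe : ∀ (z : ℂ) (t : ℝ), f (z, t) = yc φ z * f (e φ, 0) + tc φ z * f (Complex.I * e φ, 0)
      + t * f (0, 1) := by
    intro z t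
    have h1 : (z, t) = yc φ z • ((e φ, 0) : ℂ × ℝ) + tc φ z • ((Complex.I * e φ, 0) : ℂ × ℝ)
        + t • ((0, 1) : ℂ × ℝ) := by
      apply Prod.ext
      · simp only [Prod.fst_add, Prod.smul_fst, smul_zero, add_zero]
        simpa using decomp φ z
      · simp
    conv_lhs => rw [h1]
    simp only [map_add, map_smul, smul_eq_mul]
  have h0 : f (e φ, 0) = 0 := by
    by_contra hne
    have h1 : ∀ s : ℝ, u ≤ f (p + s * e φ, h) := by
      intro s
      apply hf2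
      refine ⟨?_, rfl⟩
      simp [tc_add, tc_mul]
    have h2 : ∀ s : ℝ, f (p + s * e φ, h) = f (p, h) + s * f (e φ, 0) := by
      intro s
      rw [hfe, hfe p h]
      simp only [yc_add, yc_mul, tc_add, tc_mul, yc_e_self, tc_e_self]
      ring
    have h3 := h1 ((u - f (p, h) - 1) / f (e φ, 0))
    rw [h2, div_mul_cancel₀ _ hne] at h3
    linarith
  set A := f (Complex.I * e φ, 0) with hA
  set s := f (0, 1) with hs
  have hfe' : ∀ (z : ℂ) (t : ℝ), f (z, t) = A * tc φ z + s * t := by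
    intro z t
    rw [hfe, h0]
    ring
  have hu : u ≤ f (p, h) := hf2 _ ⟨rfl, rfl⟩
  have hle : ∀ x ∈ K, f x ≤ u := by
    have hcl : K ⊆ closure (interior K) := by
      rw [hK.conv.closure_interior_eq_closure_of_nonempty_interior hK.ne]
      exact subset_closure
    intro x hx
    have hcl2 : IsClosed {x | f x ≤ u} := isClosed_le f.continuous continuous_const
    exact closure_minimal (fun y hy => (hf1 y hy).le) hcl2 (hcl hx)
  refine ⟨A, s, ?_, ?_⟩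
  · intro hA0
    have h1 := hf1 _ hz₀
    rw [hfe', hA0] at h1
    rw [hfe', hA0] at hu
    linarith
  · intro z t hz
    have h1 := hle _ hz
    rw [hfe'] at h1 hu
    exact h1.trans hu

lemma tc_rot (φ δ : ℝ) (z : ℂ) : tc (φ + δ) z = Real.cos δ * tc φ z - Real.sin δ * yc φ z := by
  simp only [tc, yc, Real.cos_add, Real.sin_add]
  ring

/-- the classes of bad directions; `w = s + h` -/
def Cls (K : Set (ℂ × ℝ)) (φ : ℝ) (ε Y1 Y2 : ℝ) (τ w : ℝ) : Prop :=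
  ∃ (s h : ℝ) (p q : ℂ), w = s + h ∧ (p, h) ∈ K ∧ (q, h) ∈ K ∧ yc φ p ≤ Y1 ∧ Y2 ≤ yc φ q ∧
    (∀ z t, (z, t) ∈ K → ε * (tc φ z - τ * yc φ z) + s * t ≤ ε * (tc φ p - τ * yc φ p) + s * h) ∧
    (∀ z t, (z, t) ∈ K → ε * (tc φ z - τ * yc φ z) + s * t ≤ ε * (tc φ q - τ * yc φ q) + s * h)

theorem Cls_holder {K : Set (ℂ × ℝ)} {φ ε Y1 Y2 : ℝ} (hε : ε = 1 ∨ ε = -1) (hY : Y1 < Y2)
    {τ w τ' w' : ℝ} (h : Cls K φ ε Y1 Y2 τ w) (h' : Cls K φ ε Y1 Y2 τ' w') :
    |τ - τ'| ≤ (1 / (4 * (Y2 - Y1))) * (w - w') ^ 2 := by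
  obtain ⟨s, a, p, q, rfl, hp, hq, hp1, hq1, h1, h2⟩ := h
  obtain ⟨s', a', p', q', rfl, hp', hq', hp1', hq1', h1', h2'⟩ := h'
  have hD : 0 < Y2 - Y1 := sub_pos.2 hY
  have key : (Y2 - Y1) * |τ - τ'| ≤ (s - s') * (a - a') := by
    rcases le_total 0 (ε * (τ - τ')) with hs | hs
    · have e1 := h2 p' a' hp'
      have e2 := h1' q a hq
      have e3 : ε * (τ - τ') * (yc φ q - yc φ p') ≤ (s - s') * (a - a') := by nlinarith
      have e4 : |τ - τ'| = ε * (τ - τ') := by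
        rcases hε with rfl | rfl
        · rw [abs_of_nonneg (by linarith)]; ring
        · rw [abs_of_nonpos (by linarith)]; ring
      rw [e4]
      refine le_trans ?_ e3
      nlinarith
    · have e1 := h1 q' a' hq'
      have e2 := h2' p a hp
      have e3 : ε * (τ - τ') * (yc φ p - yc φ q') ≤ (s - s') * (a - a') := by nlinarith
      have e4 : |τ - τ'| = - (ε * (τ - τ')) := by
        rcases hε with rfl | rfl
        · rw [abs_of_nonpos (by linarith)]; ring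
        · rw [abs_of_nonneg (by linarith)]; ring
      rw [e4]
      refine le_trans ?_ e3
      nlinarith
  have hsq : (s - s') * (a - a') ≤ (1 / 4) * ((s + a) - (s' + a')) ^ 2 := by
    nlinarith [sq_nonneg ((s - s') - (a - a'))]
  rw [div_mul_eq_mul_div, one_mul, le_div_iff₀ (by positivity)]
  nlinarith

theorem bad_subset {K : Set (ℂ × ℝ)} (hK : Body3 K) (φ : ℝ) :
    {τ : ℝ | ∃ h ∈ Hts K, ¬ NoSeg (sec K h) (φ + Real.arctan τ)} ⊆
      ⋃ x : Bool × {y : ℚ × ℚ // y.1 < y.2},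
        {τ | ∃ w, Cls K φ (if x.1 then 1 else -1) (x.2.1.1 : ℝ) (x.2.1.2 : ℝ) τ w} := by
  rintro τ ⟨h, hh, hS⟩
  unfold NoSeg at hS
  push Not at hS
  obtain ⟨p₀, hp₀, q₀, hq₀, hne₀, htc₀, hn₀⟩ := hS
  set δ := Real.arctan τ with hδ
  have hcos : 0 < Real.cos δ := Real.cos_arctan_pos τ
  have hsin : Real.sin δ = τ * Real.cos δ := by
    rw [← Real.tan_mul_cos hcos.ne', hδ, Real.tan_arctan]
  -- order the two points
  have hyne : yc φ p₀ ≠ yc φ q₀ := by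
    intro hy
    apply hne₀
    have h1 : tc φ p₀ = tc φ q₀ := by
      rw [tc_rot, tc_rot, hy] at htc₀
      have : Real.cos δ * (tc φ p₀ - tc φ q₀) = 0 := by linarith
      rcases mul_eq_zero.1 this with h2 | h2
      · exact absurd h2 hcos.ne'
      · linarith
    rw [decomp φ p₀, decomp φ q₀, hy, h1]
  obtain ⟨p, q, hp, hq, hlt, htc, hn⟩ : ∃ p q : ℂ, p ∈ sec K h ∧ q ∈ sec K h ∧ yc φ p < yc φ q ∧
      tc (φ + δ) p = tc (φ + δ) q ∧ ∀ z ∈ interior (sec K h), tc (φ + δ) z ≠ tc (φ + δ) p := by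
    rcases lt_or_gt_of_ne hyne with hl | hl
    · exact ⟨p₀, q₀, hp₀, hq₀, hl, htc₀, hn₀⟩
    · exact ⟨q₀, p₀, hq₀, hp₀, hl, htc₀.symm, fun z hz => htc₀ ▸ hn₀ z hz⟩
  obtain ⟨A, s, hA, hAs⟩ := support_exists hK hh hn
  obtain ⟨Y1, hY1, hY1'⟩ := exists_rat_btwn hlt
  obtain ⟨Y2, hY2, hY2'⟩ := exists_rat_btwn hY1'
  have hY : Y1 < Y2 := by exact_mod_cast hY2
  -- normalisation
  set ε : ℝ := if (decide (0 < A) : Bool) then 1 else -1 with hε
  have hεA : A = ε * |A| := by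
    rw [hε]
    rcases lt_or_gt_of_ne hA with hl | hl
    · rw [if_neg (by simpa using hl.le), abs_of_neg hl]; ring
    · rw [if_pos (by simpa using hl), abs_of_pos hl]; ring
  have hAp : 0 < |A| * Real.cos δ := mul_pos (abs_pos.2 hA) hcos
  have hnorm : ∀ z : ℂ, A * tc (φ + δ) z = (|A| * Real.cos δ) * (ε * (tc φ z - τ * yc φ z)) := by
    intro z
    rw [tc_rot, hsin]
    conv_lhs => rw [hεA]
    ring
  have hin : ∀ r : ℂ, tc (φ + δ) r = tc (φ + δ) p → ∀ z t, (z, t) ∈ K →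
      ε * (tc φ z - τ * yc φ z) + (s / (|A| * Real.cos δ)) * t ≤
        ε * (tc φ r - τ * yc φ r) + (s / (|A| * Real.cos δ)) * h := by
    intro r hr z t hz
    have h1 := hAs z t hz
    rw [← hr, hnorm, hnorm] at h1
    have h2 : s = (|A| * Real.cos δ) * (s / (|A| * Real.cos δ)) := by
      field_simp
    rw [h2] at h1
    have h3 : (|A| * Real.cos δ) * (ε * (tc φ z - τ * yc φ z) + (s / (|A| * Real.cos δ)) * t) ≤
        (|A| * Real.cos δ) * (ε * (tc φ r - τ * yc φ r) + (s / (|A| * Real.cos δ)) * h) := by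
      rw [mul_add, mul_add]
      calc _ = (|A| * Real.cos δ) * (ε * (tc φ z - τ * yc φ z)) +
            (|A| * Real.cos δ) * (s / (|A| * Real.cos δ)) * t := by ring
        _ ≤ _ := h1
        _ = _ := by ring
    exact le_of_mul_le_mul_left h3 hAp
  rw [mem_iUnion]
  refine ⟨(decide (0 < A), ⟨(Y1, Y2), hY⟩), s / (|A| * Real.cos δ) + h, _, h, p, q, rfl, hp, hq,
    hY1.le, hY2'.le, hin p rfl, hin q htc.symm⟩

theorem dimH_bad {K : Set (ℂ × ℝ)} (hK : Body3 K) (φ : ℝ) :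
    dimH {τ : ℝ | ∃ h ∈ Hts K, ¬ NoSeg (sec K h) (φ + Real.arctan τ)} ≤ 1 / 2 := by
  refine (dimH_mono (bad_subset hK φ)).trans ?_
  rw [dimH_iUnion]
  refine iSup_le fun x => ?_
  obtain ⟨b, ⟨⟨Y1, Y2⟩, hY⟩⟩ := x
  have hY' : (Y1 : ℝ) < (Y2 : ℝ) := by exact_mod_cast hY
  have hD : (0 : ℝ) < (Y2 : ℝ) - (Y1 : ℝ) := sub_pos.2 hY'
  refine dimH_of_holder (C := 1 / (4 * ((Y2 : ℝ) - (Y1 : ℝ)))) (by positivity)
    (fun τ w τ' w' h h' => ?_)
  refine Cls_holder ?_ hY' h h'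
  cases b <;> simp

theorem noSeg3_dense {K : Set (ℂ × ℝ)} (hK : Body3 K) :
    Dense {φ : ℝ | ∀ h ∈ Hts K, NoSeg (sec K h) φ} := by
  intro φ
  rw [mem_closure_iff_nhds]
  intro U hU
  have hd : Dense {τ : ℝ | ∃ h ∈ Hts K, ¬ NoSeg (sec K h) (φ + Real.arctan τ)}ᶜ := by
    apply dense_compl_of_dimH_lt_finrank
    refine (dimH_bad hK φ).trans_lt ?_
    simp only [Module.finrank_self, Nat.cast_one, one_div]
    exact ENNReal.inv_lt_one.2 (by norm_num)
  have hc : Tendsto (fun τ : ℝ => φ + Real.arctan τ) (𝓝 0) (𝓝 φ) := by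
    have : Continuous (fun τ : ℝ => φ + Real.arctan τ) := by fun_prop
    have h1 := this.tendsto 0
    simpa using h1
  have hU' : (fun τ : ℝ => φ + Real.arctan τ) ⁻¹' U ∈ 𝓝 (0 : ℝ) := hc hU
  obtain ⟨τ, hτ, hτ'⟩ := mem_closure_iff_nhds.1 (hd 0) _ hU'
  refine ⟨φ + Real.arctan τ, hτ, ?_⟩
  intro h hh
  by_contra hS
  exact hτ' ⟨h, hh, hS⟩

end Pool.Agent.H45.XR
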