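import Mathlib
import Pool.Agent.H45.XR.Defs

/-!
# Project XR, module C4: arithmetic of the types
-/

set_option autoImplicit false

namespace Pool.Agent.H45.XR

private theorem cyc_aux {M : ℕ} {n : ℤ} (hM : (M : ℤ) = 2 * n) {ci cj Ci Cj : ℤ}
    (hi : ci = 2 * Ci) (hj : cj = 2 * Cj) (h : ¬ IsCoprime (Cj - Ci) n) :
    (∀ m : ℤ, ¬ (M : ℤ) ∣ 2 * (Ci + 1 + m * (cj - ci)) - ci) ∧
      (∀ m : ℤ, ¬ (M : ℤ) ∣ 2 * (Ci + 1 + m * (cj - ci)) - cj) := by
  subst hi hj
  constructor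
  · rintro m ⟨t, ht⟩
    apply h
    rw [hM] at ht
    refine ⟨-2 * m, t, ?_⟩
    linarith
  · rintro m ⟨t, ht⟩
    apply h
    rw [hM] at ht
    refine ⟨1 - 2 * m, t, ?_⟩
    linarith

private theorem pth_aux {n : ℤ} (hn : 4 ≤ n) {C : Fin 3 → ℤ} {i j k : Fin 3} (hij : i ≠ j)
    (hik : i ≠ k) (hjk : j ≠ k) (hd : ¬ n ∣ C k - C j) (hu : IsCoprime (C j - C i) n)
    (hw : IsCoprime (C k - C i) n) :
    ∃ i j k : Fin 3, i ≠ j ∧ i ≠ k ∧ j ≠ k ∧ ∃ q : ℤ, IsCoprime (C j - C i) n ∧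
      n ∣ C k - C i - q * (C j - C i) ∧ ((3 ≤ q ∧ q ≤ n - 2) ∨ (Even n ∧ q = n - 1)) := by
  have hn0 : n ≠ 0 := by omega
  obtain ⟨a, b, hab⟩ := id hu
  set u := C j - C i with hu'
  set w := C k - C i with hw'
  set q := (w * a) % n with hq
  have hq0 : 0 ≤ q := Int.emod_nonneg _ hn0
  have hqn : q < n := Int.emod_lt_of_pos _ (by omega)
  have hqd : n ∣ w - q * u := by
    have h1 : q = w * a - n * (w * a / n) := by
      rw [hq, Int.emod_def]
    refine ⟨w * b + (w * a / n) * u, ?_⟩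
    rw [h1]
    linear_combination (-w) * hab
  obtain ⟨t, ht⟩ := id hqd
  have hqc : IsCoprime q n := by
    have h1 : IsCoprime (q * u) n := by
      have h2 : q * u = w + n * (-t) := by linear_combination -ht
      rw [h2]
      exact IsCoprime.add_mul_left_left hw _
    exact h1.of_mul_left_left
  have hq1 : q ≠ 0 := by
    intro h0
    rw [h0, isCoprime_zero_left, Int.isUnit_iff] at hqc
    omega
  have hq2 : q ≠ 1 := by
    intro h1
    apply hd
    rw [h1, one_mul] at hqd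
    have : C k - C j = w - u := by rw [hu', hw']; ring
    rw [this]
    exact hqd
  by_cases hA : 3 ≤ q ∧ q ≤ n - 2
  · exact ⟨i, j, k, hij, hik, hjk, q, hu, hqd, Or.inl hA⟩
  by_cases hev : Even n
  · by_cases hB : q = n - 1
    · exact ⟨i, j, k, hij, hik, hjk, q, hu, hqd, Or.inr ⟨hev, hB⟩⟩
    · exfalso
      have hq2' : q = 2 := by omega
      obtain ⟨r, hr⟩ := hev
      rw [hq2'] at hqc
      obtain ⟨x, y, hxy⟩ := hqc
      rw [hr] at hxy
      have h2 : (2 : ℤ) ∣ 1 := ⟨x + y * r, by rw [← hxy]; ring⟩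
      norm_num at h2
  · obtain ⟨r, hr⟩ := Int.not_even_iff_odd.1 hev
    have h2n : IsCoprime (2 : ℤ) n := ⟨-r, 1, by rw [hr]; ring⟩
    by_cases hB : q = n - 1
    · -- n odd, q = n - 1
      have h1 : w = n * (t + u) - u := by
        rw [hB] at ht
        linear_combination ht
      refine ⟨k, j, i, hjk.symm, hik.symm, hij.symm, r + 1, ?_, ?_, Or.inl ⟨by omega, by omega⟩⟩
      · have h3 : C j - C k = 2 * u + n * (-(t + u)) := by
          have : C j - C k = u - w := by rw [hu', hw']; ring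
          rw [this, h1]; ring
        rw [h3]
        exact IsCoprime.add_mul_left_left (h2n.mul_left hu) _
      · have h3 : C j - C k = u - w := by rw [hu', hw']; ring
        have h4 : C i - C k = - w := by rw [hw']; ring
        rw [h3, h4, h1]
        refine ⟨r * (t + u) - u, ?_⟩
        rw [hr]
        ring
    · have hq2' : q = 2 := by omega
      have h1 : w = 2 * u + n * t := by
        rw [hq2'] at ht
        linear_combination ht
      refine ⟨i, k, j, hik, hij, hjk.symm, r + 1, hw, ?_, Or.inl ⟨by omega, by omega⟩⟩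
      show n ∣ u - (r + 1) * w
      rw [h1]
      refine ⟨- u - (r + 1) * t, ?_⟩
      rw [hr]
      ring

/-- C4 : arithmetic of the types (pure number theory) -/
theorem type_arith {M : ℕ} {c : Fin 3 → ℤ} (hT : Typ M c) (h6 : ¬ (M = 6 ∧ gc M c = 2)) :
    (∃ i j k : Fin 3, i ≠ j ∧ i ≠ k ∧ j ≠ k ∧ ∃ x : ℤ,
      (∀ n : ℤ, ¬ (M : ℤ) ∣ 2 * (x + n * (c j - c i)) - c i) ∧
      (∀ n : ℤ, ¬ (M : ℤ) ∣ 2 * (x + n * (c j - c i)) - c j) ∧
      (∀ n : ℤ, ¬ (M : ℤ) ∣ 2 * (x + n * (c k - c i)) - c i) ∧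
      (∀ n : ℤ, ¬ (M : ℤ) ∣ 2 * (x + n * (c k - c i)) - c k)) ∨
    (∃ n : ℕ, M = 2 * n ∧ 4 ≤ n ∧ ∃ i j k : Fin 3, i ≠ j ∧ i ≠ k ∧ j ≠ k ∧ ∃ x e' q : ℤ,
      IsCoprime e' (n : ℤ) ∧ c j = c i + 2 * e' ∧ ((2 * n : ℕ) : ℤ) ∣ 2 * x - c i ∧
      ((2 * n : ℕ) : ℤ) ∣ c k - c i - 2 * q * e' ∧
      ((3 ≤ q ∧ q ≤ n - 2) ∨ (Even n ∧ q = n - 1))) := by
  obtain ⟨hM, h01, h12, h20, g1, g2⟩ := hT
  set g := gc M c with hg
  have hgM : (g : ℤ) ∣ (M : ℤ) := by rw [hg, gc]; exact Int.gcd_dvd_right ..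
  have hgA : (g : ℤ) ∣ ((Int.gcd (c 1 - c 0) (c 2 - c 0) : ℕ) : ℤ) := by
    rw [hg, gc]; exact Int.gcd_dvd_left ..
  have hg1 : (g : ℤ) ∣ c 1 - c 0 := hgA.trans (Int.gcd_dvd_left ..)
  have hg2 : (g : ℤ) ∣ c 2 - c 0 := hgA.trans (Int.gcd_dvd_right ..)
  have hg0 : g ≠ 0 := by
    intro h0
    rw [h0, Nat.cast_zero, zero_dvd_iff] at hgM
    omega
  by_cases hg3 : 3 ≤ g
  · left
    have hx : ∃ x : ℤ, ¬ (g : ℤ) ∣ 2 * x - c 0 := by
      by_contra hcon
      push Not at hcon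
      have e1 := hcon 0
      have e2 := hcon 1
      have e3 := dvd_sub e2 e1
      have e4 : (2 * 1 - c 0) - (2 * 0 - c 0) = 2 := by ring
      rw [e4] at e3
      have := Int.le_of_dvd (by norm_num) e3
      omega
    obtain ⟨x, hx⟩ := hx
    obtain ⟨a, ha⟩ := hg1
    obtain ⟨b, hb⟩ := hg2
    have hc1 : c 1 = c 0 + g * a := by linarith
    have hc2 : c 2 = c 0 + g * b := by linarith
    refine ⟨0, 1, 2, by decide, by decide, by decide, x, ?_, ?_, ?_, ?_⟩
    · intro n hn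
      apply hx
      obtain ⟨t, ht⟩ := hgM.trans hn
      refine ⟨t - 2 * n * a, ?_⟩
      rw [hc1] at ht
      linear_combination ht
    · intro n hn
      apply hx
      obtain ⟨t, ht⟩ := hgM.trans hn
      refine ⟨t - 2 * n * a + a, ?_⟩
      rw [hc1] at ht
      linear_combination ht
    · intro n hn
      apply hx
      obtain ⟨t, ht⟩ := hgM.trans hn
      refine ⟨t - 2 * n * b, ?_⟩
      rw [hc2] at ht
      linear_combination ht
    · intro n hn
      apply hx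
      obtain ⟨t, ht⟩ := hgM.trans hn
      refine ⟨t - 2 * n * b + b, ?_⟩
      rw [hc2] at ht
      linear_combination ht
  · have hgeq : g = 2 := by omega
    rw [hgeq] at hg1 hg2 hgM
    obtain ⟨r0, hr0⟩ := g2 hgeq
    obtain ⟨r1, hr1⟩ := hg1
    obtain ⟨r2, hr2⟩ := hg2
    obtain ⟨n', hn'⟩ := hgM
    have hn4 : 4 ≤ n' := by
      have h3 : n' ≠ 3 := by
        intro h3
        apply h6
        refine ⟨?_, hgeq⟩
        rw [h3] at hn'
        push_cast at hn'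
        omega
      push_cast at *
      omega
    obtain ⟨n, rfl⟩ := Int.eq_ofNat_of_zero_le (by omega : 0 ≤ n')
    have hMn : M = 2 * n := by
      push_cast at hn'
      exact_mod_cast hn'
    have hn4' : 4 ≤ n := by exact_mod_cast hn4
    obtain ⟨C, hC⟩ : ∃ C : Fin 3 → ℤ, ∀ i, c i = 2 * C i := by
      refine ⟨![r0, r0 + r1, r0 + r2], ?_⟩
      intro i
      fin_cases i
      · show c 0 = 2 * r0
        omega
      · show c 1 = 2 * (r0 + r1)
        push_cast at hr1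
        omega
      · show c 2 = 2 * (r0 + r2)
        push_cast at hr2
        omega
    have hMn' : (M : ℤ) = 2 * (n : ℤ) := by rw [hMn]; push_cast; ring
    have c01 : C 0 < C 1 := by have := hC 0; have := hC 1; omega
    have c12 : C 1 < C 2 := by have := hC 1; have := hC 2; omega
    have c20 : C 2 < C 0 + n := by have := hC 0; have := hC 2; omega
    have hnd : ∀ z : ℤ, z ≠ 0 → |z| < n → ¬ (n : ℤ) ∣ z := fun z hz hz' hd =>
      hz (Int.eq_zero_of_abs_lt_dvd hd hz')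
    have cyc : ∀ i j k : Fin 3, i ≠ j → i ≠ k → j ≠ k → ¬ IsCoprime (C j - C i) (n : ℤ) →
        ¬ IsCoprime (C k - C i) (n : ℤ) → ∃ i j k : Fin 3, i ≠ j ∧ i ≠ k ∧ j ≠ k ∧ ∃ x : ℤ,
      (∀ n : ℤ, ¬ (M : ℤ) ∣ 2 * (x + n * (c j - c i)) - c i) ∧
      (∀ n : ℤ, ¬ (M : ℤ) ∣ 2 * (x + n * (c j - c i)) - c j) ∧
      (∀ n : ℤ, ¬ (M : ℤ) ∣ 2 * (x + n * (c k - c i)) - c i) ∧
      (∀ n : ℤ, ¬ (M : ℤ) ∣ 2 * (x + n * (c k - c i)) - c k) := by
      intro i j k hij hik hjk h1 h2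
      have e1 := cyc_aux hMn' (hC i) (hC j) h1
      have e2 := cyc_aux hMn' (hC i) (hC k) h2
      exact ⟨i, j, k, hij, hik, hjk, C i + 1, e1.1, e1.2, e2.1, e2.2⟩
    have pth : ∀ i j k : Fin 3, i ≠ j → i ≠ k → j ≠ k → ¬ (n : ℤ) ∣ C k - C j →
        IsCoprime (C j - C i) (n : ℤ) → IsCoprime (C k - C i) (n : ℤ) →
        ∃ n : ℕ, M = 2 * n ∧ 4 ≤ n ∧ ∃ i j k : Fin 3, i ≠ j ∧ i ≠ k ∧ j ≠ k ∧ ∃ x e' q : ℤ,
      IsCoprime e' (n : ℤ) ∧ c j = c i + 2 * e' ∧ ((2 * n : ℕ) : ℤ) ∣ 2 * x - c i ∧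
      ((2 * n : ℕ) : ℤ) ∣ c k - c i - 2 * q * e' ∧
      ((3 ≤ q ∧ q ≤ n - 2) ∨ (Even n ∧ q = n - 1)) := by
      intro i j k hij hik hjk hd h1 h2
      obtain ⟨i, j, k, hij, hik, hjk, q, e1, e2, e3⟩ := pth_aux hn4 hij hik hjk hd h1 h2
      refine ⟨n, hMn, hn4', i, j, k, hij, hik, hjk, C i, C j - C i, q, e1, ?_, ?_, ?_, ?_⟩
      · rw [hC i, hC j]; ring
      · rw [hC i, sub_self]; exact dvd_zero _
      · rw [hC i, hC k]
        obtain ⟨t, ht⟩ := e2
        refine ⟨t, ?_⟩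
        push_cast
        linear_combination 2 * ht
      · rcases e3 with e3 | ⟨e3, e4⟩
        · exact Or.inl e3
        · exact Or.inr ⟨by exact_mod_cast e3, e4⟩
    have neg1 : ∀ i j : Fin 3, IsCoprime (C j - C i) (n : ℤ) ↔ IsCoprime (C i - C j) (n : ℤ) := by
      intro i j
      rw [← neg_sub, IsCoprime.neg_left_iff]
    by_cases P01 : IsCoprime (C 1 - C 0) (n : ℤ)
    · by_cases P02 : IsCoprime (C 2 - C 0) (n : ℤ)
      · right
        exact pth 0 1 2 (by decide) (by decide) (by decide)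
          (hnd _ (by omega) (by rw [abs_lt]; omega)) P01 P02
      · by_cases P12 : IsCoprime (C 2 - C 1) (n : ℤ)
        · right
          exact pth 1 0 2 (by decide) (by decide) (by decide)
            (hnd _ (by omega) (by rw [abs_lt]; omega)) ((neg1 0 1).1 P01) P12
        · left
          exact cyc 2 0 1 (by decide) (by decide) (by decide)
            (fun h => P02 ((neg1 0 2).2 h)) (fun h => P12 ((neg1 1 2).2 h))
    · by_cases P02 : IsCoprime (C 2 - C 0) (n : ℤ)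
      · by_cases P12 : IsCoprime (C 2 - C 1) (n : ℤ)
        · right
          exact pth 2 0 1 (by decide) (by decide) (by decide)
            (hnd _ (by omega) (by rw [abs_lt]; omega)) ((neg1 0 2).1 P02) ((neg1 1 2).1 P12)
        · left
          exact cyc 1 0 2 (by decide) (by decide) (by decide)
            (fun h => P01 ((neg1 0 1).2 h)) P12
      · left
        exact cyc 0 1 2 (by decide) (by decide) (by decide) P01 P02

end Pool.Agent.H45.XR
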