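import Mathlib
import Pool.Agent.H45.XR.Defs

/-!
# Project XR, module L: limits of hexagons
-/

set_option autoImplicit false

open MeasureTheory Set Filter Topology
open scoped Real ENNReal

namespace Pool.Agent.H45.XR

namespace LimL

theorem lone_cross {C C' : Set ℂ} (hC : Convex ℝ C) (hC' : Convex ℝ C') {φ : ℝ} {p a b z : ℂ}
    (hl : Lone C C' φ p) (ha : a ∈ C) (ha' : a ∈ C') (hb : b ∈ C) (hb' : b ∈ C') (hz : z ∈ C)
    (hz' : z ∈ C') (hab : ∃ s : ℝ, 0 < s ∧ b = a + s * e φ) {l : ℝ} (hl0 : 0 < l) (hl1 : l ≤ 1)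
    (hp : tc φ p = (1 - l) * tc φ z + l * tc φ a) : False := by
  obtain ⟨s, hs, rfl⟩ := hab
  have h1 : ∀ x : ℂ, x ∈ C → x ∈ C' → tc φ x = tc φ p → x = p := by
    intro x hx hx' ht
    have h2 := eq_add_of_tc_eq ht
    have h3 : ((yc φ x - yc φ p : ℝ)) = 0 := by
      apply hl
      · rw [← h2]; exact hx
      · rw [← h2]; exact hx'
    rw [h2, h3]
    simp
  have hm : ∀ (D : Set ℂ), Convex ℝ D → ∀ x ∈ D, z ∈ D → (1 - l) • z + l • x ∈ D :=
    fun D hD x hx hzD => hD hzD hx (by linarith) hl0.le (by ring)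
  have e1 := h1 ((1 - l) • z + l • a) (hm C hC a ha hz) (hm C' hC' a ha' hz')
    (by rw [tc_add, tc_smul, tc_smul, hp])
  have e2 := h1 ((1 - l) • z + l • (a + s * e φ)) (hm C hC _ hb hz) (hm C' hC' _ hb' hz')
    (by rw [tc_add, tc_smul, tc_smul, tc_add, tc_mul, tc_e_self, mul_zero, add_zero, hp])
  rw [← e1] at e2
  have e3 : l • ((s : ℂ) * e φ) = 0 := by
    have : (1 - l) • z + l • (a + s * e φ) = ((1 - l) • z + l • a) + l • ((s : ℂ) * e φ) := by
      rw [smul_add]; ring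
    rw [this] at e2
    exact left_eq_add.1 e2.symm
  rcases smul_eq_zero.1 e3 with h | h
  · exact hl0.ne' h
  · rcases mul_eq_zero.1 h with h | h
    · exact hs.ne' (by exact_mod_cast h)
    · exact e_ne_zero φ h

theorem lone_min {C C' : Set ℂ} (hC : Convex ℝ C) (hC' : Convex ℝ C') {φ : ℝ} {p a b z : ℂ}
    (hl : Lone C C' φ p) (ha : a ∈ C) (ha' : a ∈ C') (hb : b ∈ C) (hb' : b ∈ C') (hz : z ∈ C)
    (hz' : z ∈ C') (hab : ∃ s : ℝ, 0 < s ∧ b = a + s * e φ) (hlt : tc φ p < tc φ a) :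
    tc φ p ≤ tc φ z := by
  by_contra hc
  push Not at hc
  have hD : 0 < tc φ a - tc φ z := by linarith
  refine lone_cross hC hC' hl ha ha' hb hb' hz hz' hab
    (l := (tc φ p - tc φ z) / (tc φ a - tc φ z)) (div_pos (by linarith) hD)
    ((div_le_one hD).2 (by linarith)) ?_
  field_simp
  ring

theorem lone_max {C C' : Set ℂ} (hC : Convex ℝ C) (hC' : Convex ℝ C') {φ : ℝ} {p a b z : ℂ}
    (hl : Lone C C' φ p) (ha : a ∈ C) (ha' : a ∈ C') (hb : b ∈ C) (hb' : b ∈ C') (hz : z ∈ C)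
    (hz' : z ∈ C') (hab : ∃ s : ℝ, 0 < s ∧ b = a + s * e φ) (hlt : tc φ a < tc φ p) :
    tc φ z ≤ tc φ p := by
  by_contra hc
  push Not at hc
  have hD : 0 < tc φ z - tc φ a := by linarith
  refine lone_cross hC hC' hl ha ha' hb hb' hz hz' hab
    (l := (tc φ z - tc φ p) / (tc φ z - tc φ a)) (div_pos (by linarith) hD)
    ((div_le_one hD).2 (by linarith)) ?_
  field_simp
  ring

theorem int_sec {K : Set (ℂ × ℝ)} {z : ℂ} {h : ℝ} (hz : (z, h) ∈ interior K) : z ∈ sec K h :=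
  (interior_subset hz : (z, h) ∈ K)

theorem convex_sec {K : Set (ℂ × ℝ)} (hK : Body3 K) (h : ℝ) : Convex ℝ (sec K h) := by
  intro x hx y hy a b ha hb hab
  have h1 := hK.conv (show (x, h) ∈ K from hx) (show (y, h) ∈ K from hy) ha hb hab
  have h2 : a • ((x, h) : ℂ × ℝ) + b • ((y, h) : ℂ × ℝ) = (a • x + b • y, h) := by
    apply Prod.ext
    · simp
    · simp only [Prod.snd_add, Prod.smul_snd, smul_eq_mul]
      rw [← add_mul, hab, one_mul]
  rw [h2] at h1
  exact h1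

lemma tc_rot' (φ ψ : ℝ) (z : ℂ) :
    tc ψ z = Real.cos (ψ - φ) * tc φ z - Real.sin (ψ - φ) * yc φ z := by
  have h := Real.sin_sq_add_cos_sq φ
  simp only [tc, yc, Real.cos_sub, Real.sin_sub]
  linear_combination (Real.sin ψ * z.re - Real.cos ψ * z.im) * h

theorem eq_of_two_coords {φ ψ : ℝ} {z w : ℂ} (hs : Real.sin (ψ - φ) ≠ 0) (h1 : tc φ z = tc φ w)
    (h2 : tc ψ z = tc ψ w) : z = w := by
  rw [tc_rot' φ ψ z, tc_rot' φ ψ w, h1] at h2
  have h3 : Real.sin (ψ - φ) * (yc φ z - yc φ w) = 0 := by linarith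
  rcases mul_eq_zero.1 h3 with h | h
  · exact absurd h hs
  · have := eq_add_of_tc_eq h1
    rw [h] at this
    simpa using this

lemma tc_I_e (φ : ℝ) : tc φ (Complex.I * e φ) = 1 := by
  have h := Real.sin_sq_add_cos_sq φ
  simp only [tc, Complex.mul_re, Complex.mul_im, Complex.I_re, Complex.I_im, e_re, e_im]
  linear_combination h

/-- the closed relation of points on a line -/
def OnLine (φ : ℝ) (a b : ℂ) : Prop := tc φ a = tc φ b ∧ yc φ a ≤ yc φ b

theorem OnLine.of {φ : ℝ} {a b : ℂ} (h : ∃ s : ℝ, 0 < s ∧ b = a + s * e φ) : OnLine φ a b := by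
  obtain ⟨s, hs, rfl⟩ := h
  constructor
  · rw [tc_add, tc_mul, tc_e_self]; ring
  · rw [yc_add, yc_mul, yc_e_self]; linarith

theorem OnLine.get {φ : ℝ} {a b : ℂ} (h : OnLine φ a b) : ∃ s : ℝ, 0 ≤ s ∧ b = a + s * e φ :=
  ⟨yc φ b - yc φ a, sub_nonneg.2 h.2, eq_add_of_tc_eq h.1.symm⟩

theorem OnLine.lim {φ : ℝ} {a b : ℕ → ℂ} {a' b' : ℂ} (h : ∀ n, OnLine φ (a n) (b n))
    (ha : Tendsto a atTop (𝓝 a')) (hb : Tendsto b atTop (𝓝 b')) : OnLine φ a' b' := by
  constructor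
  · have h1 : Tendsto (fun n => tc φ (a n)) atTop (𝓝 (tc φ a')) :=
      ((continuous_tc φ).tendsto a').comp ha
    have h2 : Tendsto (fun n => tc φ (b n)) atTop (𝓝 (tc φ b')) :=
      ((continuous_tc φ).tendsto b').comp hb
    have h3 : (fun n => tc φ (a n)) = fun n => tc φ (b n) := funext fun n => (h n).1
    rw [h3] at h1
    exact tendsto_nhds_unique h1 h2
  · exact le_of_tendsto_of_tendsto' (((continuous_yc φ).tendsto a').comp ha)
      (((continuous_yc φ).tendsto b').comp hb) fun n => (h n).2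

end LimL

open LimL in
theorem hex_limit {K K' : Set (ℂ × ℝ)} (hK : Body3 K) (hK' : Body3 K') {φ : Fin 3 → ℝ}
    (h01 : φ 0 < φ 1) (h12 : φ 1 < φ 2) (h20 : φ 2 < φ 0 + π) {α : ℝ} (hα : α ∈ Hts K)
    (hα' : α ∈ Hts K') (hsec : sec K' α = sec K α) {h : ℕ → ℝ} (hh : Tendsto h atTop (𝓝 α))
    (hx : ∀ n, ∃ p : Fin 6 → ℂ, HexPair (sec K (h n)) (sec K' (h n)) φ p) :
    Crit K φ α := by
  choose p hp using hx
  -- a common interior point
  obtain ⟨m, hm, hm'⟩ : ∃ m : ℂ, (m, α) ∈ interior K ∧ (m, α) ∈ interior K' := by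
    obtain ⟨w, hw⟩ := hα
    obtain ⟨w', hw'⟩ := hα'
    have hwK' : (w, α) ∈ K' := by
      have : w ∈ sec K α := int_sec hw
      rw [← hsec] at this
      exact this
    have hwK : (w', α) ∈ K := by
      have : w' ∈ sec K' α := int_sec hw'
      rw [hsec] at this
      exact this
    have e1 : (((1 / 2 : ℝ) • w + (1 / 2 : ℝ) • w', α) : ℂ × ℝ) =
        (1 / 2 : ℝ) • ((w, α) : ℂ × ℝ) + (1 / 2 : ℝ) • ((w', α) : ℂ × ℝ) := by
      apply Prod.ext
      · simp
      · simp only [Prod.snd_add, Prod.smul_snd, smul_eq_mul]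
        ring
    refine ⟨(1 / 2 : ℝ) • w + (1 / 2 : ℝ) • w', ?_, ?_⟩
    · rw [e1]
      exact hK.conv.combo_interior_self_mem_interior hw hwK (by norm_num) (by norm_num)
        (by norm_num)
    · rw [e1]
      exact hK'.conv.combo_self_interior_mem_interior hwK' hw' (by norm_num) (by norm_num)
        (by norm_num)
  -- the limit
  obtain ⟨Q, hQ, ψ, hψ, hlim⟩ := (isCompact_univ_pi (fun _ : Fin 6 => hK.cpt)).tendsto_subseq
    (x := fun n => fun x : Fin 6 => ((p n x, h n) : ℂ × ℝ))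
    (fun n => fun x _ => (hp n).hex.mem x)
  have hlim' : ∀ x, Tendsto (fun n => ((p (ψ n) x, h (ψ n)) : ℂ × ℝ)) atTop (𝓝 (Q x)) := by
    intro x
    exact (tendsto_pi_nhds.1 hlim x)
  set q : Fin 6 → ℂ := fun x => (Q x).1 with hq
  have hq1 : ∀ x, Tendsto (fun n => p (ψ n) x) atTop (𝓝 (q x)) := fun x =>
    ((continuous_fst.tendsto _).comp (hlim' x))
  have hhψ : Tendsto (fun n => h (ψ n)) atTop (𝓝 α) := hh.comp hψ.tendsto_atTop
  have hq2 : ∀ x, (Q x).2 = α := fun x =>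
    tendsto_nhds_unique ((continuous_snd.tendsto _).comp (hlim' x)) hhψ
  have hqC : ∀ x, q x ∈ sec K α := by
    intro x
    have h1 : Q x ∈ K := hQ x (mem_univ x)
    show (q x, α) ∈ K
    rw [← hq2 x]
    exact h1
  have hev : ∀ z : ℂ, (z, α) ∈ interior K → (z, α) ∈ interior K' →
      ∀ᶠ n in atTop, z ∈ sec K (h (ψ n)) ∧ z ∈ sec K' (h (ψ n)) := by
    intro z hz hz'
    have h1 : Tendsto (fun n => ((z, h (ψ n)) : ℂ × ℝ)) atTop (𝓝 (z, α)) :=
      tendsto_const_nhds.prodMk_nhds hhψ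
    have h2 := h1 (isOpen_interior.mem_nhds hz)
    have h3 := h1 (isOpen_interior.mem_nhds hz')
    filter_upwards [h2, h3] with n hn hn'
    exact ⟨int_sec (show (z, h (ψ n)) ∈ interior K from hn),
      int_sec (show (z, h (ψ n)) ∈ interior K' from hn')⟩
  -- approximation of points of the section by interior points
  have happ : ∀ z ∈ sec K α, ∀ t ∈ Ioc (0 : ℝ) 1, (z + t • (m - z), α) ∈ interior K ∧
      (z + t • (m - z), α) ∈ interior K' := by
    intro z hz t ht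
    have e1 : ((z + t • (m - z), α) : ℂ × ℝ) = (z, α) + t • (((m, α) : ℂ × ℝ) - (z, α)) := by
      apply Prod.ext
      · simp
      · simp
    have hz' : (z, α) ∈ K' := by
      have : z ∈ sec K' α := by rw [hsec]; exact hz
      exact this
    rw [e1]
    exact ⟨hK.conv.add_smul_sub_mem_interior (show (z, α) ∈ K from hz) hm ht,
      hK'.conv.add_smul_sub_mem_interior hz' hm' ht⟩
  have htd : ∀ (φ : ℝ) (z : ℂ), Tendsto (fun t : ℝ => tc φ (z + t • (m - z))) (𝓝[>] 0)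
      (𝓝 (tc φ z)) := by
    intro φ z
    have hc : Continuous (fun t : ℝ => tc φ (z + t • (m - z))) := by
      unfold tc
      fun_prop
    have h1 := hc.tendsto 0
    simp only [zero_smul, add_zero] at h1
    exact h1.mono_left nhdsWithin_le_nhds
  have hIoc : ∀ᶠ t : ℝ in 𝓝[>] 0, t ∈ Ioc (0 : ℝ) 1 := Ioc_mem_nhdsGT one_pos
  have hmin : ∀ (φ : ℝ) (x : Fin 6), (∀ z, (z, α) ∈ interior K → (z, α) ∈ interior K' →
      ∀ᶠ n in atTop, tc φ (p (ψ n) x) ≤ tc φ z) → ∀ z ∈ sec K α, tc φ (q x) ≤ tc φ z := by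
    intro φ x hz0 z hz
    have h1 : ∀ z, (z, α) ∈ interior K → (z, α) ∈ interior K' → tc φ (q x) ≤ tc φ z := by
      intro z hz hz'
      exact le_of_tendsto (((continuous_tc φ).tendsto _).comp (hq1 x)) (hz0 z hz hz')
    refine ge_of_tendsto (htd φ z) ?_
    filter_upwards [hIoc] with t ht
    exact h1 _ (happ z hz t ht).1 (happ z hz t ht).2
  have hmax : ∀ (φ : ℝ) (x : Fin 6), (∀ z, (z, α) ∈ interior K → (z, α) ∈ interior K' →
      ∀ᶠ n in atTop, tc φ z ≤ tc φ (p (ψ n) x)) → ∀ z ∈ sec K α, tc φ z ≤ tc φ (q x) := by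
    intro φ x hz0 z hz
    have h1 : ∀ z, (z, α) ∈ interior K → (z, α) ∈ interior K' → tc φ z ≤ tc φ (q x) := by
      intro z hz hz'
      exact ge_of_tendsto (((continuous_tc φ).tendsto _).comp (hq1 x)) (hz0 z hz hz')
    refine le_of_tendsto (htd φ z) ?_
    filter_upwards [hIoc] with t ht
    exact h1 _ (happ z hz t ht).1 (happ z hz t ht).2
  -- extremality
  have m0 : ∀ z ∈ sec K α, tc (φ 0) (q 0) ≤ tc (φ 0) z := by
    apply hmin
    intro z hz hz'
    filter_upwards [hev z hz hz'] with n hn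
    have H := hp (ψ n)
    have hlt : tc (φ 0) (p (ψ n) 0) < tc (φ 0) (p (ψ n) 5) := by
      have h1 := (OnLine.of H.hex.r0a).1
      have h2 := H.hex.t0.1
      linarith
    exact lone_min (convex_sec hK _) (convex_sec hK' _) H.l0.1 (H.hex.mem 5) (H.mem' 5)
      (H.hex.mem 1) (H.mem' 1) hn.1 hn.2 H.hex.r0a hlt
  have M1 : ∀ z ∈ sec K α, tc (φ 1) z ≤ tc (φ 1) (q 4) := by
    apply hmax
    intro z hz hz'
    filter_upwards [hev z hz hz'] with n hn
    have H := hp (ψ n)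
    exact lone_max (convex_sec hK _) (convex_sec hK' _) H.l1.2 (H.hex.mem 5) (H.mem' 5)
      (H.hex.mem 3) (H.mem' 3) hn.1 hn.2 H.hex.r1b H.hex.t1.2.2
  have m2 : ∀ z ∈ sec K α, tc (φ 2) (q 2) ≤ tc (φ 2) z := by
    apply hmin
    intro z hz hz'
    filter_upwards [hev z hz hz'] with n hn
    have H := hp (ψ n)
    exact lone_min (convex_sec hK _) (convex_sec hK' _) H.l2.1 (H.hex.mem 1) (H.mem' 1)
      (H.hex.mem 3) (H.mem' 3) hn.1 hn.2 H.hex.r2a H.hex.t2.1
  have M2 : ∀ z ∈ sec K α, tc (φ 2) z ≤ tc (φ 2) (q 5) := by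
    apply hmax
    intro z hz hz'
    filter_upwards [hev z hz hz'] with n hn
    have H := hp (ψ n)
    exact lone_max (convex_sec hK _) (convex_sec hK' _) H.l2.2 (H.hex.mem 0) (H.mem' 0)
      (H.hex.mem 4) (H.mem' 4) hn.1 hn.2 H.hex.r2b H.hex.t2.2.2
  -- limits of the relations
  have R0a : OnLine (φ 0) (q 5) (q 1) :=
    OnLine.lim (fun n => OnLine.of (hp (ψ n)).hex.r0a) (hq1 5) (hq1 1)
  have R0b : OnLine (φ 0) (q 4) (q 2) :=
    OnLine.lim (fun n => OnLine.of (hp (ψ n)).hex.r0b) (hq1 4) (hq1 2)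
  have R1a : OnLine (φ 1) (q 0) (q 2) :=
    OnLine.lim (fun n => OnLine.of (hp (ψ n)).hex.r1a) (hq1 0) (hq1 2)
  have R2b : OnLine (φ 2) (q 0) (q 4) :=
    OnLine.lim (fun n => OnLine.of (hp (ψ n)).hex.r2b) (hq1 0) (hq1 4)
  have T0 : tc (φ 0) (q 1) ≤ tc (φ 0) (q 2) :=
    le_of_tendsto_of_tendsto' (((continuous_tc _).tendsto _).comp (hq1 1))
      (((continuous_tc _).tendsto _).comp (hq1 2)) fun n => (hp (ψ n)).hex.t0.2.1.le
  have T1 : tc (φ 1) (q 0) ≤ tc (φ 1) (q 5) :=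
    le_of_tendsto_of_tendsto' (((continuous_tc _).tendsto _).comp (hq1 0))
      (((continuous_tc _).tendsto _).comp (hq1 5)) fun n => (hp (ψ n)).hex.t1.2.1.le
  obtain ⟨s0, hs0, e0⟩ := R0b.get
  obtain ⟨s1, hs1, e1⟩ := R1a.get
  obtain ⟨s2, hs2, e2⟩ := R2b.get
  have S10 : 0 < Real.sin (φ 1 - φ 0) := Real.sin_pos_of_pos_of_lt_pi (by linarith) (by linarith)
  have S20 : 0 < Real.sin (φ 2 - φ 0) := Real.sin_pos_of_pos_of_lt_pi (by linarith) (by linarith)
  have S21 : 0 < Real.sin (φ 2 - φ 1) := Real.sin_pos_of_pos_of_lt_pi (by linarith) (by linarith)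
  have E1 : s1 * Real.sin (φ 1 - φ 0) = s2 * Real.sin (φ 2 - φ 0) := by
    have h1 : tc (φ 0) (q 4) = tc (φ 0) (q 2) := R0b.1
    rw [e1, e2, tc_add, tc_add, tc_mul, tc_mul, tc_e, tc_e] at h1
    linarith
  have E2 : s2 * Real.sin (φ 2 - φ 1) = s0 * Real.sin (φ 1 - φ 0) := by
    have h1 : tc (φ 1) (q 0) = tc (φ 1) (q 2) := R1a.1
    rw [e0, e2, tc_add, tc_add, tc_mul, tc_mul, tc_e, tc_e] at h1
    have h2 : Real.sin (φ 0 - φ 1) = - Real.sin (φ 1 - φ 0) := by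
      rw [← Real.sin_neg]; ring_nf
    rw [h2] at h1
    linarith
  have hs1' : s1 ≠ 0 := by
    intro h0
    have hs2' : s2 = 0 := by
      rw [h0, zero_mul] at E1
      rcases mul_eq_zero.1 E1.symm with h1 | h1
      · exact h1
      · exact absurd h1 S20.ne'
    have q20 : q 2 = q 0 := by rw [e1, h0]; simp
    have q40 : q 4 = q 0 := by rw [e2, hs2']; simp
    have t5 : tc (φ 0) (q 5) = tc (φ 0) (q 0) := by
      have h1 := R0a.1
      have h2 := m0 (q 1) (hqC 1)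
      rw [q20] at T0
      linarith
    have t5' : tc (φ 1) (q 5) = tc (φ 1) (q 0) := by
      have h1 := M1 (q 5) (hqC 5)
      rw [q40] at h1
      linarith
    have q50 : q 5 = q 0 := eq_of_two_coords S10.ne' t5 t5'
    have hconst : ∀ z ∈ sec K α, tc (φ 2) z = tc (φ 2) (q 0) := by
      intro z hz
      have h1 := M2 z hz
      have h2 := m2 z hz
      rw [q50] at h1
      rw [q20] at h2
      linarith
    have hc : Continuous (fun r : ℝ => ((m + r * (Complex.I * e (φ 2)), α) : ℂ × ℝ)) := by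
      fun_prop
    have h1 : (fun r : ℝ => ((m + r * (Complex.I * e (φ 2)), α) : ℂ × ℝ)) ⁻¹' interior K ∈
        𝓝 (0 : ℝ) := by
      apply hc.continuousAt.preimage_mem_nhds
      apply isOpen_interior.mem_nhds
      simpa using hm
    obtain ⟨r, hr, hr0⟩ := (Metric.mem_nhds_iff.1 h1)
    have hr2 : (r / 2) ∈ Metric.ball (0 : ℝ) r := by
      rw [Metric.mem_ball, Real.dist_eq, sub_zero, abs_of_pos (by linarith)]
      linarith
    have h2 := hr0 hr2
    have h3 : m + ((r / 2 : ℝ) : ℂ) * (Complex.I * e (φ 2)) ∈ sec K α :=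
      int_sec (show (m + ((r / 2 : ℝ) : ℂ) * (Complex.I * e (φ 2)), α) ∈ interior K
        from h2)
    have h4 := hconst _ h3
    have h5 := hconst m (int_sec hm)
    rw [tc_add, tc_mul, tc_I_e, h5] at h4
    linarith
  have hs1p : 0 < s1 := lt_of_le_of_ne hs1 (Ne.symm hs1')
  have hs2p : 0 < s2 := by
    have : 0 < s2 * Real.sin (φ 2 - φ 0) := by rw [← E1]; positivity
    exact pos_of_mul_pos_left this S20.le
  have hs0p : 0 < s0 := by
    have : 0 < s0 * Real.sin (φ 1 - φ 0) := by rw [← E2]; positivity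
    exact pos_of_mul_pos_left this S10.le
  exact ⟨q 0, hqC 0, q 2, hqC 2, q 4, hqC 4, ⟨s0, hs0p, e0⟩, ⟨s1, hs1p, e1⟩, ⟨s2, hs2p, e2⟩,
    m0, M1, m2⟩

end Pool.Agent.H45.XR
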